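import Pool.Agent.H22.BK2

namespace Pool.Agent.Results.MP_5f1d42_lc.All

open Pool.Agent.H36.PSpace Pool.Agent.H22.BR

/-- For every fixed `k ≥ 6`, balanced recombination with `k` districts is PSPACE-hard on
3-connected graphs, already for slack `0`. -/
theorem result (k : ℕ) (hk : 6 ≤ k) : PSPACEHardOn (Three k) (BR k) := by
  obtain ⟨d, rfl⟩ : ∃ d, k = d + 3 := ⟨k - 3, by omega⟩
  exact (K.br_psh (by omega)).hardOn

end Pool.Agent.Results.MP_5f1d42_lc.All
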